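import Pool.Agent.Q236.E1.Chain
import Pool.Agent.Q236.E1.Real

/-!
# MP_e13726_nt: primes among the sums of the first `2 n` primes

For `n = 4316581` the sum of the first `2 n` primes is `642984091850095`, at most `270432` of the
numbers `S 1, …, S n` are prime, and `⌊x₀(n)⌋ ≥ 270500`.  The primes up to `153559867` and a proper
divisor of all but at most `270432` of the numbers `S 1, …, S n` are checked in the kernel, in 295
chunks (files `Pool/Agent/Q236/E1/D*.lean`).
-/

namespace Pool.Agent.Results.MP_e13726_nt.Counterexample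

/-- `S n`: the sum of the first `2 n` primes (`Nat.nth Nat.Prime 0 = 2`) -/
noncomputable def S (n : ℕ) : ℕ := ∑ i ∈ Finset.range (2 * n), Nat.nth Nat.Prime i

/-- the number of primes among `S 1, …, S n` -/
noncomputable def primeCount (n : ℕ) : ℕ := ((Finset.Icc 1 n).filter fun k => (S k).Prime).card

/-- `R n = 2 n^(5/2) log n / S n` -/
noncomputable def R (n : ℕ) : ℝ := 2 * (n : ℝ) ^ (5 / 2 : ℝ) * Real.log n / S n

/-- `x` is the number `x₀(n)`: `x > 1` and `x log x = R n ^ 2` -/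
def IsX0 (n : ℕ) (x : ℝ) : Prop := 1 < x ∧ x * Real.log x = R n ^ 2

theorem S_pos {n : ℕ} (hn : 1 ≤ n) : 0 < S n := by
  unfold S
  apply Finset.sum_pos
  · intro i _
    exact (Pool.Agent.Q236.E1.nth_pr i).pos
  · exact ⟨0, Finset.mem_range.2 (by omega)⟩

theorem R_pos {n : ℕ} (hn : 2 ≤ n) : 0 < R n := by
  unfold R
  have h1 : (0 : ℝ) < n := by positivity
  have h2 : (0 : ℝ) < S n := by exact_mod_cast S_pos (by omega : 1 ≤ n)
  have h3 : 0 < Real.log n := Real.log_pos (by exact_mod_cast hn)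
  positivity

/-- **The negated form of Q1**: for `n = 4316581` fewer than `⌊x₀(n)⌋` of the numbers
`S 1, …, S n` are prime. -/
theorem result :
    (∀ n : ℕ, 2 ≤ n → ∃! x : ℝ, IsX0 n x) ∧
    (∃ n : ℕ, 4000000 ≤ n ∧ ∀ x : ℝ, IsX0 n x → (primeCount n : ℤ) < ⌊x⌋) ∧
    primeCount 4316581 ≤ 270432 ∧ ∀ x : ℝ, IsX0 4316581 x → (270500 : ℤ) ≤ ⌊x⌋ := by
  have h1 : primeCount 4316581 ≤ 270432 := Pool.Agent.Q236.E1.final_cn
  have h2 : ∀ x : ℝ, IsX0 4316581 x → (270500 : ℤ) ≤ ⌊x⌋ := by
    intro x hx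
    rw [Int.le_floor]
    have e : (S 4316581 : ℝ) = 642984091850095 := by
      have : S 4316581 = 642984091850095 := Pool.Agent.Q236.E1.final_sum
      rw [this]
      norm_num
    have h3 := hx.2
    unfold R at h3
    rw [e] at h3
    have h4 := Pool.Agent.Q236.E1.bound hx.1 (by
      rw [h3]
      norm_num)
    exact_mod_cast h4
  refine ⟨?_, ⟨4316581, by norm_num, ?_⟩, h1, h2⟩
  · intro n hn
    exact Pool.Agent.Q236.E1.exists_unique_x0 (pow_pos (R_pos hn) 2)
  · intro x hx
    have h3 := h2 x hx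
    omega

end Pool.Agent.Results.MP_e13726_nt.Counterexample
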